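import Pool.Agent.N206.CG.Stm2

/-!
# Project CG, leaf CLS: the normal subgroups of the spinal groups (helper527)
-/

set_option autoImplicit false

namespace Pool.Agent.N527.CG

open Pool.Agent.N206.CG
open scoped commutatorElement

variable {L : Loc} (S : Sys L)

/-- there is a nontrivial action at depth `k` -/
def Dp : ℕ → ∀ n : ℕ, S.D n → Prop
  | 0, n, d => S.root n d ≠ 1
  | k + 1, n, d => ∃ x, Dp k (n + 1) (S.sec n d x)

theorem exists_Dp (n : ℕ) (d : S.D n) (hd : d ≠ 1) : ∃ k, Dp S k n d := by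
  by_contra hcon
  push Not at hcon
  refine hd (S.faith (fun n => {d | ∀ k, ¬ Dp S k n d}) ?_ n d hcon)
  intro m e he
  refine ⟨?_, fun x k hk => he (k + 1) ⟨x, hk⟩⟩
  by_contra h
  exact he 0 h

/-- the conclusion for `N` -/
def Con (n : ℕ) (N : Subgroup (S.D n)) : Prop :=
  N ≤ ⁅N, (⊤ : Subgroup (S.D n))⁆ ∧ ∃ l R, S.IsN l R n N ∧ R ≤ L.P l ∧ R ≠ ⊥ ∧
    ∀ g ∈ L.P l, ∀ r ∈ R, g * r * g⁻¹ ∈ R

theorem mem_of_root {n : ℕ} {T : Subgroup (S.D n)} (hT : ∀ d, S.root n d = 1 → d ∈ T) {d e : S.D n}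
    (he : e ∈ T) (h : S.root n d = S.root n e) : d ∈ T := by
  have h1 : d * e⁻¹ ∈ T := hT _ (by rw [map_mul, map_inv, h, mul_inv_cancel])
  have h2 := T.mul_mem h1 he
  rwa [inv_mul_cancel_right] at h2

theorem con_root (h1 : S_PERF S) (h2 : S_TOP S) {n : ℕ} {N : Subgroup (S.D n)} (hN : N.Normal)
    (hd : ∃ d ∈ N, S.root n d ≠ 1) : Con S n N := by
  have hker := h2 n N hN hd
  obtain ⟨R, hR⟩ : ∃ R, R = N.map (S.root n) := ⟨_, rfl⟩
  have hRP : R ≤ L.P n := by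
    rw [hR]
    rintro _ ⟨d, -, rfl⟩
    exact S.root_mem n d
  have hR0 : R ≠ ⊥ := by
    intro h
    obtain ⟨d, hd1, hd2⟩ := hd
    have h3 : S.root n d ∈ R := by
      rw [hR]
      exact ⟨d, hd1, rfl⟩
    rw [h, Subgroup.mem_bot] at h3
    exact hd2 h3
  have hRn : ∀ g ∈ L.P n, ∀ r ∈ R, g * r * g⁻¹ ∈ R := by
    intro g hg r hr
    rw [hR] at hr ⊢
    obtain ⟨e, he, rfl⟩ := hr
    refine ⟨S.rt n ⟨g, hg⟩ * e * (S.rt n ⟨g, hg⟩)⁻¹, hN.conj_mem e he _, ?_⟩
    rw [map_mul, map_mul, map_inv, S.root_rt]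
  have hcomap : N = R.comap (S.root n) := by
    apply le_antisymm
    · intro d hd
      rw [hR]
      exact ⟨d, hd, rfl⟩
    · intro d hd
      rw [hR] at hd
      obtain ⟨e, he, h⟩ := hd
      exact mem_of_root S hker he h.symm
  refine ⟨?_, n, R, ?_, hRP, hR0, hRn⟩
  · obtain ⟨Q, hQ⟩ : ∃ Q : Subgroup (S.D n), Q = ⁅N, (⊤ : Subgroup (S.D n))⁆ := ⟨_, rfl⟩
    rw [← hQ]
    have hlam : ∀ x g, S.lam n x g ∈ Q := by
      intro x g
      have h3 : (⊤ : Subgroup (S.D (n + 1))) ≤ Q.comap (S.lamH n x) := by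
        rw [← h1 (n + 1), commutator_def, Subgroup.commutator_le]
        intro a _ b _
        rw [Subgroup.mem_comap, map_commutatorElement, hQ]
        exact Subgroup.commutator_mem_commutator (hker _ (S.root_lam n x a)) (Subgroup.mem_top _)
      exact h3 (Subgroup.mem_top g)
    have hrt : ∀ d, S.root n d = 1 → d ∈ Q := fun d hd => S.mem_of_lam n Q d hd fun x => hlam x _
    intro d hd
    have h3 : S.root n d ∈ R := by
      rw [hR]
      exact ⟨d, hd, rfl⟩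
    have h4 : R ≤ Q.map (S.root n) := by
      refine (L.res n R hRP hRn).trans ?_
      rw [hQ, Subgroup.map_commutator, ← hR]
      refine Subgroup.commutator_mono le_rfl ?_
      intro g hg
      exact ⟨S.rt n ⟨g, hg⟩, Subgroup.mem_top _, S.root_rt n ⟨g, hg⟩⟩
    obtain ⟨e, he, h5⟩ := h4 h3
    exact mem_of_root S hrt he h5.symm
  · rw [hcomap]
    exact Sys.IsN.base

theorem sec_conj {n : ℕ} (g : L.P n) (e : S.D n) (y : L.E n) :
    S.sec n (S.rt n g * e * (S.rt n g)⁻¹) (S.root n (S.rt n g) y) = S.sec n e y := by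
  rw [S.sec_mul, S.sec_inv', S.sec_rt, inv_one, mul_one, map_inv, Equiv.Perm.inv_def,
    Equiv.symm_apply_apply, S.sec_mul, S.sec_rt, one_mul]

theorem con_all (h1 : S_PERF S) (h2 : S_TOP S) : ∀ (k n : ℕ) (N : Subgroup (S.D n)), N.Normal →
    (∃ d ∈ N, Dp S k n d) → Con S n N := by
  intro k
  induction k with
  | zero => exact fun n N hN hd => con_root S h1 h2 hN hd
  | succ k ih =>
    intro n N hN hd
    by_cases hroot : ∃ d ∈ N, S.root n d ≠ 1
    · exact con_root S h1 h2 hN hroot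
    push Not at hroot
    obtain ⟨d, hdN, x₀, hdx⟩ := hd
    -- the sections
    let M : Subgroup (S.D (n + 1)) :=
      { carrier := {m | ∃ e ∈ N, S.sec n e x₀ = m}
        mul_mem' := by
          rintro _ _ ⟨e, he, rfl⟩ ⟨f, hf, rfl⟩
          refine ⟨e * f, N.mul_mem he hf, ?_⟩
          rw [S.sec_mul, hroot f hf, Equiv.Perm.one_apply]
        one_mem' := ⟨1, N.one_mem, S.sec_one n x₀⟩
        inv_mem' := by
          rintro _ ⟨e, he, rfl⟩
          refine ⟨e⁻¹, N.inv_mem he, ?_⟩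
          rw [S.sec_inv, hroot e he, inv_one, Equiv.Perm.one_apply] }
    have memM : ∀ m, m ∈ M ↔ ∃ e ∈ N, S.sec n e x₀ = m := fun m => Iff.rfl
    have hM : M.Normal := by
      constructor
      rintro _ ⟨e, he, rfl⟩ g
      refine ⟨S.lam n x₀ g * e * (S.lam n x₀ g)⁻¹, hN.conj_mem e he _, ?_⟩
      rw [S.sec_mul, S.sec_mul, ← S.lam_inv, S.root_lam, Equiv.Perm.one_apply, hroot e he,
        Equiv.Perm.one_apply, S.sec_lam_self, S.sec_lam_self]
    obtain ⟨hMc, l, R, hM1, hM2, hM3, hM4⟩ := ih (n + 1) M hM ⟨_, ⟨d, hdN, rfl⟩, hdx⟩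
    -- the sections at all letters
    have hsec : ∀ e ∈ N, ∀ y, S.sec n e y ∈ M := by
      intro e he y
      obtain ⟨g, hg⟩ := S.exists_rt n y x₀
      refine ⟨S.rt n g * e * (S.rt n g)⁻¹, hN.conj_mem e he _, ?_⟩
      rw [← hg]
      exact sec_conj S g e y
    have hsurj : ∀ m ∈ M, ∀ y, ∃ e ∈ N, S.sec n e y = m := by
      rintro _ ⟨e, he, rfl⟩ y
      obtain ⟨g, hg⟩ := S.exists_rt n x₀ y
      refine ⟨S.rt n g * e * (S.rt n g)⁻¹, hN.conj_mem e he _, ?_⟩
      rw [← hg]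
      exact sec_conj S g e x₀
    obtain ⟨Q, hQ⟩ : ∃ Q : Subgroup (S.D n), Q = ⁅N, (⊤ : Subgroup (S.D n))⁆ := ⟨_, rfl⟩
    have hQN : Q ≤ N := by
      rw [hQ]
      exact Subgroup.commutator_le_left N ⊤
    have hlam : ∀ m ∈ M, ∀ y, S.lam n y m ∈ Q := by
      intro m hm y
      have h3 : ⁅M, (⊤ : Subgroup (S.D (n + 1)))⁆ ≤ Q.comap (S.lamH n y) := by
        rw [Subgroup.commutator_le]
        intro a ha g _
        obtain ⟨e, he, rfl⟩ := hsurj a ha y
        rw [Subgroup.mem_comap, S.lamH_apply, hQ]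
        have h4 : ⁅e, S.lam n y g⁆ = S.lam n y ⁅S.sec n e y, g⁆ := by
          rw [commutatorElement_def, S.conj_lam, hroot e he, Equiv.Perm.one_apply, ← S.lam_inv,
            ← S.lam_mul, commutatorElement_def]
        rw [← h4]
        exact Subgroup.commutator_mem_commutator he (Subgroup.mem_top _)
      exact h3 (hMc hm)
    refine ⟨?_, l, R, ?_, hM2, hM3, hM4⟩
    · rw [← hQ]
      intro e he
      exact S.mem_of_lam n Q e (hroot e he) fun x => hlam _ (hsec e he x) x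
    · refine Sys.IsN.step n N M hM1 fun e => ⟨fun he => ⟨hroot e he, hsec e he⟩, fun he => ?_⟩
      exact S.mem_of_lam n N e he.1 fun x => hQN (hlam _ (he.2 x) x)

theorem t_COMM {L : Loc} (S : Sys L) (h1 : S_PERF S) (h2 : S_TOP S) : S_COMM S := by
  intro n N hN d hd
  by_cases h : d = 1
  · rw [h]
    exact Subgroup.one_mem _
  · obtain ⟨k, hk⟩ := exists_Dp S n d h
    exact (con_all S h1 h2 k n N hN ⟨d, hd, hk⟩).1 hd

theorem t_CLS {L : Loc} (S : Sys L) (h1 : S_PERF S) (h2 : S_TOP S) : S_CLS S := by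
  intro n N hN h0
  obtain ⟨d, hd⟩ := N.ne_bot_iff_exists_ne_one.1 h0
  obtain ⟨k, hk⟩ := exists_Dp S n (d : S.D n) (fun h => hd (Subtype.ext h))
  exact (con_all S h1 h2 k n N hN ⟨d, d.2, hk⟩).2

end Pool.Agent.N527.CG
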